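import Pool.Agent.N361.CV.Def

/-!
PROJECT CV (helper361), part RAND: the expectation of the number of uncovered elements for random
`k`-uniform families.  Written by helper170.
-/

set_option autoImplicit false

namespace Pool.Agent.N170.CV

open Finset Pool.Agent.N361.CV

lemma desc_le {a M : ℕ} (h : a ≤ M) (m : ℕ) :
    a.descFactorial m * M ^ m ≤ M.descFactorial m * a ^ m := by
  induction m with
  | zero => simp
  | succ m ih =>
    rw [Nat.descFactorial_succ, Nat.descFactorial_succ, pow_succ, pow_succ]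
    have h1 : (a - m) * M ≤ (M - m) * a := by
      by_cases ha : a ≤ m
      · rw [Nat.sub_eq_zero_of_le ha]
        simp
      · push Not at ha
        obtain ⟨u, rfl⟩ := Nat.exists_eq_add_of_le ha.le
        obtain ⟨v, rfl⟩ := Nat.exists_eq_add_of_le h
        rw [Nat.add_sub_cancel_left, add_assoc, Nat.add_sub_cancel_left]
        nlinarith
    calc (a - m) * a.descFactorial m * (M ^ m * M)
        = ((a - m) * M) * (a.descFactorial m * M ^ m) := by ring
      _ ≤ ((M - m) * a) * (M.descFactorial m * a ^ m) := Nat.mul_le_mul h1 ih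
      _ = (M - m) * M.descFactorial m * (a ^ m * a) := by ring

lemma choose_le {a M : ℕ} (h : a ≤ M) (m : ℕ) : a.choose m * M ^ m ≤ M.choose m * a ^ m := by
  have h1 := desc_le h m
  rw [Nat.descFactorial_eq_factorial_mul_choose, Nat.descFactorial_eq_factorial_mul_choose,
    mul_assoc, mul_assoc] at h1
  exact Nat.le_of_mul_le_mul_left h1 (Nat.factorial_pos m)

lemma choose_exp {M t : ℕ} (ht : t ≤ M) (hM : 0 < M) (m : ℕ) :
    ((M - t).choose m : ℝ) ≤ M.choose m * Real.exp (-((t : ℝ) * m / M)) := by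
  have h1 : (((M - t).choose m : ℕ) : ℝ) * (M : ℝ) ^ m ≤ M.choose m * ((M - t : ℕ) : ℝ) ^ m := by
    exact_mod_cast choose_le (Nat.sub_le M t) m
  have hMr : (0 : ℝ) < M := by exact_mod_cast hM
  have h2 : ((M - t : ℕ) : ℝ) / M ≤ Real.exp (-((t : ℝ) / M)) := by
    rw [Nat.cast_sub ht, sub_div, div_self hMr.ne']
    have := Real.add_one_le_exp (-((t : ℝ) / M))
    linarith
  have h3 : ((M - t : ℕ) : ℝ) ^ m ≤ (M : ℝ) ^ m * Real.exp (-((t : ℝ) * m / M)) := by
    have h4 : (((M - t : ℕ) : ℝ) / M) ^ m ≤ Real.exp (-((t : ℝ) / M)) ^ m :=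
      pow_le_pow_left₀ (by positivity) h2 m
    rw [div_pow, div_le_iff₀ (by positivity), ← Real.exp_nat_mul] at h4
    have h5 : (m : ℝ) * -((t : ℝ) / M) = -((t : ℝ) * m / M) := by ring
    rw [h5] at h4
    linarith
  have h6 : (((M - t).choose m : ℕ) : ℝ) * (M : ℝ) ^ m ≤
      (M.choose m * Real.exp (-((t : ℝ) * m / M))) * (M : ℝ) ^ m := by
    calc (((M - t).choose m : ℕ) : ℝ) * (M : ℝ) ^ m ≤ M.choose m * ((M - t : ℕ) : ℝ) ^ m := h1
      _ ≤ M.choose m * ((M : ℝ) ^ m * Real.exp (-((t : ℝ) * m / M))) :=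
          mul_le_mul_of_nonneg_left h3 (by positivity)
      _ = _ := by ring
  exact le_of_mul_le_mul_right h6 (by positivity)

lemma choose8 {a b : ℕ} (j : ℕ) (h : ∀ i < j, b - i ≤ 8 * (a - i)) :
    b.choose j ≤ 8 ^ j * a.choose j := by
  have key : b.descFactorial j ≤ 8 ^ j * a.descFactorial j := by
    induction j with
    | zero => simp
    | succ j ih =>
      rw [Nat.descFactorial_succ, Nat.descFactorial_succ, pow_succ]
      calc (b - j) * b.descFactorial j ≤ (8 * (a - j)) * (8 ^ j * a.descFactorial j) :=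
            Nat.mul_le_mul (h j (by omega)) (ih fun i hi => h i (by omega))
        _ = _ := by ring
  rw [Nat.descFactorial_eq_factorial_mul_choose, Nat.descFactorial_eq_factorial_mul_choose] at key
  have h2 : j.factorial * b.choose j ≤ j.factorial * (8 ^ j * a.choose j) := by
    calc j.factorial * b.choose j ≤ 8 ^ j * (j.factorial * a.choose j) := key
      _ = _ := by ring
  exact Nat.le_of_mul_le_mul_left h2 (Nat.factorial_pos j)

/-- the members of `U` which cover `x` inside `S` -/
def Ex (k n : ℕ) (S : Finset ℕ) (x : ℕ) : Finset (Finset ℕ) :=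
  (powersetCard k (range n)).filter (fun A => A ⊆ S ∧ x ∈ A)

lemma card_Ex {k n : ℕ} (hk : 1 ≤ k) {S : Finset ℕ} (hS : S ⊆ range n) {x : ℕ} (hx : x ∈ S) :
    (S.card - 1).choose (k - 1) ≤ (Ex k n S x).card := by
  rw [← card_erase_of_mem hx, ← card_powersetCard]
  refine Finset.card_le_card_of_injOn (insert x) ?_ ?_
  · intro A hA
    rw [mem_coe, mem_powersetCard] at hA
    have hxA : x ∉ A := fun h => by simpa using hA.1 h
    rw [mem_coe, Ex, mem_filter, mem_powersetCard]
    have h1 : insert x A ⊆ S := insert_subset hx (hA.1.trans (erase_subset _ _))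
    refine ⟨⟨h1.trans hS, ?_⟩, h1, mem_insert_self _ _⟩
    rw [card_insert_of_notMem hxA, hA.2]
    omega
  · intro A hA B hB hAB
    rw [mem_coe, mem_powersetCard] at hA hB
    have hxA : x ∉ A := fun h => by simpa using hA.1 h
    have hxB : x ∉ B := fun h => by simpa using hB.1 h
    rw [← erase_insert hxA, ← erase_insert hxB, hAB]

lemma count_notMem (k n m : ℕ) (S : Finset ℕ) (x : ℕ) :
    ((powersetCard m (powersetCard k (range n))).filter (fun B => x ∉ cov B S)).card =
      ((powersetCard k (range n)).card - (Ex k n S x).card).choose m := by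
  have h1 : (powersetCard m (powersetCard k (range n))).filter (fun B => x ∉ cov B S) =
      powersetCard m (powersetCard k (range n) \ Ex k n S x) := by
    ext B
    simp only [mem_filter, mem_powersetCard, mem_cov, not_exists, not_and]
    constructor
    · rintro ⟨⟨h1, h2⟩, h3⟩
      refine ⟨fun A hA => ?_, h2⟩
      rw [mem_sdiff]
      refine ⟨h1 hA, fun h => ?_⟩
      rw [Ex, mem_filter] at h
      exact h3 A hA h.2.1 h.2.2
    · rintro ⟨h1, h2⟩
      refine ⟨⟨h1.trans sdiff_subset, h2⟩, fun A hA hAS hxA => ?_⟩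
      have h4 := h1 hA
      rw [mem_sdiff] at h4
      refine h4.2 ?_
      rw [Ex, mem_filter]
      exact ⟨h4.1, hAS, hxA⟩
  have h2 : Ex k n S x ⊆ powersetCard k (range n) := filter_subset _ _
  rw [h1, card_powersetCard, card_sdiff_of_subset h2]

lemma sum_unc (X : Finset (Finset (Finset ℕ))) (N : Finset ℕ) :
    ∑ B ∈ X, unc B N = ∑ S ∈ N.powerset, ∑ x ∈ S, (X.filter (fun B => x ∉ cov B S)).card := by
  unfold unc
  rw [sum_comm]
  refine sum_congr rfl fun S _ => ?_
  have : ∀ B : Finset (Finset ℕ), (S \ cov B S).card = ∑ x ∈ S, if x ∉ cov B S then 1 else 0 := by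
    intro B
    rw [← card_filter]
    congr 1
    ext x; simp
  simp only [this, card_filter]
  rw [sum_comm]

lemma small (n : ℕ) : ((((range n).powerset).filter (fun S => 4 * S.card < n)).card : ℝ) ≤
    (881 / 500) ^ n := by
  have h1 : ∑ S ∈ (range n).powerset, ((4 / 5 : ℝ) ^ 4) ^ S.card = (881 / 625) ^ n := by
    have := Finset.sum_pow_mul_eq_add_pow ((4 / 5 : ℝ) ^ 4) 1 (range n)
    simp only [one_pow, mul_one, card_range] at this
    rw [this]
    norm_num
  have h2 : ((((range n).powerset).filter (fun S => 4 * S.card < n)).card : ℝ) * (4 / 5) ^ n ≤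
      (881 / 625) ^ n := by
    rw [← h1]
    calc ((((range n).powerset).filter (fun S => 4 * S.card < n)).card : ℝ) * (4 / 5) ^ n
        = ∑ S ∈ ((range n).powerset).filter (fun S => 4 * S.card < n), (4 / 5 : ℝ) ^ n := by
          rw [sum_const, nsmul_eq_mul]
      _ ≤ ∑ S ∈ ((range n).powerset).filter (fun S => 4 * S.card < n),
            ((4 / 5 : ℝ) ^ 4) ^ S.card := by
          refine sum_le_sum fun S hS => ?_
          rw [mem_filter] at hS
          rw [← pow_mul]
          exact pow_le_pow_of_le_one (by norm_num) (by norm_num) hS.2.le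
      _ ≤ _ := sum_le_sum_of_subset_of_nonneg (filter_subset _ _) fun _ _ _ => by positivity
  have h3 : (881 / 625 : ℝ) ^ n = (881 / 500) ^ n * (4 / 5) ^ n := by
    rw [← mul_pow]; norm_num
  rw [h3] at h2
  exact le_of_mul_le_mul_right h2 (by positivity)

/-- the large sets -/
lemma large {k n m : ℕ} (hk : 1 ≤ k) (hn : 8 * k + 8 ≤ n) (hm : (8 : ℝ) ^ k * n * Real.log n ≤ m)
    {S : Finset ℕ} (hS : S ⊆ range n) (hS4 : n ≤ 4 * S.card) {x : ℕ} (hx : x ∈ S) :
    (((powersetCard m (powersetCard k (range n))).filter (fun B => x ∉ cov B S)).card : ℝ) ≤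
      (powersetCard m (powersetCard k (range n))).card * (1 / (n : ℝ) ^ 8) := by
  rw [count_notMem, card_powersetCard m]
  set M := (powersetCard k (range n)).card with hM
  set t := (Ex k n S x).card with ht
  have hMc : M = n.choose k := by rw [hM, card_powersetCard, card_range]
  have htM : t ≤ M := card_le_card (filter_subset _ _)
  have hM0 : 0 < M := by rw [hMc]; exact Nat.choose_pos (by omega)
  have hn0 : (0 : ℝ) < n := by exact_mod_cast (by omega : 0 < n)
  refine (choose_exp htM hM0 m).trans (mul_le_mul_of_nonneg_left ?_ (by positivity))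
  -- `k M ≤ 8 ^ (k - 1) n t`
  have h1 : (n - 1).choose (k - 1) ≤ 8 ^ (k - 1) * (S.card - 1).choose (k - 1) :=
    choose8 _ fun i hi => by omega
  have h2 := card_Ex hk hS hx
  have h3 : n * (n - 1).choose (k - 1) = M * k := by
    rw [hMc]
    have := Nat.add_one_mul_choose_eq (n - 1) (k - 1)
    have e1 : n - 1 + 1 = n := by omega
    have e2 : k - 1 + 1 = k := by omega
    rw [e1, e2] at this
    exact this
  have h4 : M * k ≤ n * (8 ^ (k - 1) * t) := by
    rw [← h3]
    exact Nat.mul_le_mul_left _ (h1.trans (Nat.mul_le_mul_left _ h2))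
  have h5 : (M : ℝ) * k ≤ n * (8 ^ (k - 1) * t) := by exact_mod_cast h4
  have hMr : (0 : ℝ) < M := by exact_mod_cast hM0
  have hkr : (1 : ℝ) ≤ k := by exact_mod_cast hk
  have hlog : 0 ≤ Real.log n := Real.log_natCast_nonneg n
  have h8 : (8 : ℝ) ^ k = 8 * 8 ^ (k - 1) := by
    rw [← pow_succ']
    congr 1
    omega
  have h6 : 8 * Real.log n ≤ (t : ℝ) * m / M := by
    rw [le_div_iff₀ hMr]
    have h7 : (t : ℝ) * ((8 : ℝ) ^ k * n * Real.log n) ≤ t * m :=
      mul_le_mul_of_nonneg_left hm (by positivity)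
    have h9 : 8 * Real.log n * (M * k) ≤ 8 * Real.log n * (n * (8 ^ (k - 1) * t)) :=
      mul_le_mul_of_nonneg_left h5 (by positivity)
    have h10 : 8 * Real.log n * M ≤ 8 * Real.log n * (M * k) := by
      refine mul_le_mul_of_nonneg_left ?_ (by positivity)
      nlinarith
    rw [h8] at h7
    calc 8 * Real.log n * M ≤ 8 * Real.log n * (n * (8 ^ (k - 1) * t)) := h10.trans h9
      _ = (t : ℝ) * (8 * 8 ^ (k - 1) * n * Real.log n) := by ring
      _ ≤ t * m := h7
  calc Real.exp (-((t : ℝ) * m / M)) ≤ Real.exp (-(8 * Real.log n)) :=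
        Real.exp_le_exp.2 (by linarith)
    _ = 1 / (n : ℝ) ^ 8 := by
        rw [Real.exp_neg, one_div]
        congr 1
        have : 8 * Real.log n = Real.log ((n : ℝ) ^ 8) := by
          rw [Real.log_pow]; norm_num
        rw [this, Real.exp_log (by positivity)]

theorem rand : S_RAND := by
  intro k hk
  -- the final choice of `n₀`
  have hlim : ∀ᶠ n : ℕ in Filter.atTop, (n : ℝ) ^ 2 * (881 / 1000 : ℝ) ^ n ≤ 1 / 10 := by
    have h := tendsto_pow_const_mul_const_pow_of_lt_one 2 (r := (881 / 1000 : ℝ)) (by norm_num)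
      (by norm_num)
    exact (h.eventually (gt_mem_nhds (by norm_num : (0 : ℝ) < 1 / 10))).mono fun n hn => hn.le
  obtain ⟨n₁, hn₁⟩ := Filter.eventually_atTop.1 hlim
  refine ⟨n₁ + 8 * k + 10, fun n hn m hm => ?_⟩
  set X := powersetCard m (powersetCard k (range n)) with hX
  have hn2 : (2 : ℝ) ≤ n := by exact_mod_cast (by omega : 2 ≤ n)
  have hn0 : (0 : ℝ) < n := by linarith
  -- the sum
  have hsum : ((∑ B ∈ X, unc B (range n) : ℕ) : ℝ) ≤
      X.card * (2 ^ n * (n * (1 / (n : ℝ) ^ 8)) + (881 / 500) ^ n * n) := by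
    rw [sum_unc]
    push_cast
    have hterm : ∀ S ∈ (range n).powerset,
        ∑ x ∈ S, ((X.filter (fun B => x ∉ cov B S)).card : ℝ) ≤
          X.card * (n * (1 / (n : ℝ) ^ 8)) + if 4 * S.card < n then (X.card : ℝ) * n else 0 := by
      intro S hS
      rw [mem_powerset] at hS
      have hSn : (S.card : ℝ) ≤ n := by
        have := card_le_card hS
        rw [card_range] at this
        exact_mod_cast this
      by_cases h4 : 4 * S.card < n
      · rw [if_pos h4]
        have h5 : ∑ x ∈ S, ((X.filter (fun B => x ∉ cov B S)).card : ℝ) ≤ S.card * X.card := by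
          rw [← nsmul_eq_mul, ← sum_const]
          exact sum_le_sum fun x _ => by exact_mod_cast card_filter_le _ _
        have h6 : (S.card : ℝ) * X.card ≤ n * X.card :=
          mul_le_mul_of_nonneg_right hSn (by positivity)
        have h7 : (0 : ℝ) ≤ X.card * (n * (1 / (n : ℝ) ^ 8)) := by positivity
        linarith
      · rw [if_neg h4, add_zero]
        push Not at h4
        calc ∑ x ∈ S, ((X.filter (fun B => x ∉ cov B S)).card : ℝ)
            ≤ ∑ x ∈ S, (X.card : ℝ) * (1 / (n : ℝ) ^ 8) :=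
              sum_le_sum fun x hx => large hk (by omega) hm hS h4 hx
          _ = S.card * (X.card * (1 / (n : ℝ) ^ 8)) := by rw [sum_const, nsmul_eq_mul]
          _ ≤ n * (X.card * (1 / (n : ℝ) ^ 8)) := mul_le_mul_of_nonneg_right hSn (by positivity)
          _ = _ := by ring
    refine (sum_le_sum hterm).trans ?_
    rw [sum_add_distrib, sum_const, card_powerset, card_range, ← sum_filter, sum_const,
      nsmul_eq_mul, nsmul_eq_mul]
    push_cast
    have h5 := small n
    have h6 : ((((range n).powerset).filter (fun S => 4 * S.card < n)).card : ℝ) *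
        ((X.card : ℝ) * n) ≤ (881 / 500) ^ n * ((X.card : ℝ) * n) :=
      mul_le_mul_of_nonneg_right h5 (by positivity)
    calc _ ≤ (2 : ℝ) ^ n * (X.card * (n * (1 / (n : ℝ) ^ 8))) +
          (881 / 500) ^ n * ((X.card : ℝ) * n) := add_le_add le_rfl h6
      _ = _ := by ring
  -- Markov
  have hmarkov : ((X.filter (fun B => 2 ^ n < 5 * unc B (range n))).card : ℝ) * 2 ^ n ≤
      5 * ((∑ B ∈ X, unc B (range n) : ℕ) : ℝ) := by
    calc ((X.filter (fun B => 2 ^ n < 5 * unc B (range n))).card : ℝ) * 2 ^ n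
        = ∑ B ∈ X.filter (fun B => 2 ^ n < 5 * unc B (range n)), (2 : ℝ) ^ n := by
          rw [sum_const, nsmul_eq_mul]
      _ ≤ ∑ B ∈ X.filter (fun B => 2 ^ n < 5 * unc B (range n)), 5 * (unc B (range n) : ℝ) := by
          refine sum_le_sum fun B hB => ?_
          rw [mem_filter] at hB
          exact_mod_cast hB.2.le
      _ ≤ ∑ B ∈ X, 5 * (unc B (range n) : ℝ) :=
          sum_le_sum_of_subset_of_nonneg (filter_subset _ _) fun _ _ _ => by positivity
      _ = _ := by rw [← mul_sum]; push_cast; rfl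
  have hfin : 5 * (n * (2 ^ n * (n * (1 / (n : ℝ) ^ 8)) + (881 / 500) ^ n * n)) ≤ (2 : ℝ) ^ n := by
    have h1 := hn₁ n (by omega)
    have h2 : (881 / 500 : ℝ) ^ n = 2 ^ n * (881 / 1000) ^ n := by
      rw [← mul_pow]; norm_num
    have h3 : (n : ℝ) * (n * (1 / (n : ℝ) ^ 8)) ≤ 1 / 10 := by
      have h4 : (n : ℝ) * (n * (1 / (n : ℝ) ^ 8)) = 1 / (n : ℝ) ^ 6 := by
        field_simp
      rw [h4]
      have h5 : (2 : ℝ) ^ 6 ≤ (n : ℝ) ^ 6 := pow_le_pow_left₀ (by norm_num) hn2 6
      exact one_div_le_one_div_of_le (by norm_num) (by linarith)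
    have hp : (0 : ℝ) < 2 ^ n := by positivity
    rw [h2]
    calc 5 * ((n : ℝ) * (2 ^ n * (n * (1 / (n : ℝ) ^ 8)) + 2 ^ n * (881 / 1000) ^ n * n))
        = 2 ^ n * (5 * (n * (n * (1 / (n : ℝ) ^ 8))) + 5 * (n ^ 2 * (881 / 1000) ^ n)) := by ring
      _ ≤ 2 ^ n * 1 := by
          refine mul_le_mul_of_nonneg_left ?_ hp.le
          linarith
      _ = _ := mul_one _
  have hp : (0 : ℝ) < 2 ^ n := by positivity
  have hgoal : ((n * (X.filter (fun B => 2 ^ n < 5 * unc B (range n))).card : ℕ) : ℝ) * 2 ^ n ≤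
      (X.card : ℝ) * 2 ^ n := by
    push_cast
    calc (n : ℝ) * ((X.filter (fun B => 2 ^ n < 5 * unc B (range n))).card : ℝ) * 2 ^ n
        = n * (((X.filter (fun B => 2 ^ n < 5 * unc B (range n))).card : ℝ) * 2 ^ n) := by ring
      _ ≤ n * (5 * (X.card * (2 ^ n * (n * (1 / (n : ℝ) ^ 8)) + (881 / 500) ^ n * n))) :=
          mul_le_mul_of_nonneg_left (hmarkov.trans (by linarith)) hn0.le
      _ = X.card * (5 * (n * (2 ^ n * (n * (1 / (n : ℝ) ^ 8)) + (881 / 500) ^ n * n))) := by ring
      _ ≤ X.card * 2 ^ n := mul_le_mul_of_nonneg_left hfin (by positivity)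
  exact_mod_cast le_of_mul_le_mul_right hgoal hp

end Pool.Agent.N170.CV
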